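import Pool.Agent.helper70.FI3.SpecN3

/-!
# Project fi3, row fi3:TRSS
-/

set_option autoImplicit false

namespace Pool.Agent.FI3

open Pool.Agent.helper58.DC Pool.Agent.DI Pool.Agent.GR Pool.Agent.OB Pool.Agent.DR Pool.Agent.FI

theorem TRSS_alg {V E F : Type} (S : Finset V) (X : Finset E) (T : Finset F) (f : E → V → ℂ) (g : F → V → ℂ)
    (a b : ℂ) (h : ∀ v ∈ S, ∑ χ ∈ X, f χ v = (∑ ψ ∈ T, g ψ v) / a) :
    ∑ χ ∈ X, (∑ v ∈ S, f χ v) / b = (∑ ψ ∈ T, (∑ v ∈ S, g ψ v) / b) / a := by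
  rw [← Finset.sum_div, ← Finset.sum_div, Finset.sum_comm, Finset.sum_congr rfl h, ← Finset.sum_div,
    Finset.sum_comm, div_div, div_div, mul_comm a b]

theorem TRSS (hTRV : TRV3_stmt) (hCJI : CJI_stmt) (hIDM : IDM_stmt) (hB2 : B2_stmt) : TRSS_stmt := by
  classical
  intro p M hM G _ _ D x θ χ hL P hP Z hZ l u hu
  have hX : (XL M (cz P) θ Z l).Finite := (hB2 G (cz P)).1.subset fun ψ h => h.1.1
  have hb : (Bl M (Cz (cz P) u) θ).Finite := (hB2 G (Cz (cz P) u)).1.subset fun ψ h => h.1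
  have hS : {v : G | v ∈ Cz (cz P) u ∧ PReg p v}.Finite := Set.toFinite _
  have huL : u ∈ cz P := Q1_D_le hL.rt hP hu
  have huK : u ∈ Cz (cz P) u := by
    refine Subgroup.mem_inf.2 ⟨huL, Subgroup.mem_centralizer_iff.2 fun h hh => ?_⟩
    rw [Set.mem_singleton_iff.1 hh]
  obtain ⟨hCF, -, hid, -⟩ := hIDM G (Cz (cz P) u) (Bl M (Cz (cz P) u) θ) (fun ψ h => h.1)
  have hconj : ∀ χ' ∈ XL M (cz P) θ Z l, ∀ v ∈ Cz (cz P) u,
      (starRingEnd ℂ) (ev χ' (eS (Cz (cz P) u) (Bl M (Cz (cz P) u) θ)) (u * v)) =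
        ev χ' (eS (Cz (cz P) u) (Bl M (Cz (cz P) u) θ)) (u * v)⁻¹ := by
    intro χ' hχ v hv
    have hg : u * v ∈ Cz (cz P) u := mul_mem huK hv
    symm
    apply hCJI G (cz P) (eS (Cz (cz P) u) (Bl M (Cz (cz P) u) θ))
      (fun y hy => hCF.2 y (fun h => hy (Subgroup.mem_inf.1 h).1)) hid (u * v) (Subgroup.mem_inf.1 hg).1
      (fun y => hCF.1 (u * v) hg y) χ' hχ.1.1
  have hLHS : ∑ᶠ χ' ∈ XL M (cz P) θ Z l, Su p M (cz P) θ χ' u =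
      ∑ χ' ∈ hX.toFinset, (∑ v ∈ hS.toFinset,
        ev χ' (eS (Cz (cz P) u) (Bl M (Cz (cz P) u) θ)) (u * v) *
        ev χ' (eS (Cz (cz P) u) (Bl M (Cz (cz P) u) θ)) (u * v)⁻¹) / (Nat.card (Cz (cz P) u) : ℂ) := by
    rw [finsum_mem_eq_finite_toFinset_sum _ hX]
    refine Finset.sum_congr rfl fun χ' hχ => ?_
    unfold Su
    rw [finsum_mem_eq_finite_toFinset_sum _ hS]
    congr 1
    refine Finset.sum_congr rfl fun v hv => ?_
    rw [hconj χ' (hX.mem_toFinset.1 hχ) v (hS.mem_toFinset.1 hv).1]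
  have hRHS : ∑ᶠ ψ ∈ Bl M (Cz (cz P) u) θ, EE p (Cz (cz P) u) ψ ψ =
      ∑ ψ ∈ hb.toFinset, (∑ v ∈ hS.toFinset, ψ v * ψ v⁻¹) / (Nat.card (Cz (cz P) u) : ℂ) := by
    rw [finsum_mem_eq_finite_toFinset_sum _ hb]
    refine Finset.sum_congr rfl fun ψ _ => ?_
    unfold EE
    rw [finsum_mem_eq_finite_toFinset_sum _ hS]
  rw [hLHS, hRHS]
  apply TRSS_alg hS.toFinset hX.toFinset hb.toFinset
    (fun χ' v => ev χ' (eS (Cz (cz P) u) (Bl M (Cz (cz P) u) θ)) (u * v) *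
        ev χ' (eS (Cz (cz P) u) (Bl M (Cz (cz P) u) θ)) (u * v)⁻¹) (fun ψ v => ψ v * ψ v⁻¹)
  intro v hv
  have h1 := hTRV p M hM G D x θ χ hL P hP Z hZ l u hu v (hS.mem_toFinset.1 hv).1 (hS.mem_toFinset.1 hv).2
  unfold Sf at h1
  rw [finsum_mem_eq_finite_toFinset_sum _ hX, finsum_mem_eq_finite_toFinset_sum _ hb] at h1
  exact h1

end Pool.Agent.FI3
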